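import Mathlib
import Pool.Agent.W739.CY.Stm

/-! Project CY (helper739), part POS: positivity. -/

set_option autoImplicit false

namespace Pool.Agent.W287.CY

open Finset
open Pool.Agent.W739.CY

variable {C : Type} [DecidableEq C]

theorem spl_nonneg (w : List C) : ∀ f : List C → C → List C → ℝ, (∀ v c u, 0 ≤ f v c u) →
    0 ≤ spl f w := by
  induction w with
  | nil =>
    intro f _
    exact le_refl _
  | cons x w ih =>
    intro f hf
    show 0 ≤ f [] x w + spl (fun v c u => f (x :: v) c u) w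
    exact add_nonneg (hf _ _ _) (ih _ (fun v c u => hf _ _ _))

theorem spl_abs_le (w : List C) : ∀ f g : List C → C → List C → ℝ,
    (∀ v c u, |f v c u| ≤ g v c u) → |spl f w| ≤ spl g w := by
  induction w with
  | nil =>
    intro f g _
    show |(0 : ℝ)| ≤ 0
    rw [abs_zero]
  | cons x w ih =>
    intro f g hf
    show |f [] x w + spl (fun v c u => f (x :: v) c u) w| ≤
      g [] x w + spl (fun v c u => g (x :: v) c u) w
    exact (abs_add_le _ _).trans (add_le_add (hf _ _ _) (ih _ _ (fun v c u => hf _ _ _)))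

theorem Fn_nonneg {p : ℝ} (h0 : 0 < p) (h1 : p < 1) (n : ℕ) :
    ∀ (a b : Option C) (w : List C), 0 ≤ Fn p n a w b := by
  induction n with
  | zero =>
    intro a b w
    unfold Fn
    split_ifs <;> norm_num
  | succ n ih =>
    intro a b w
    unfold Fn
    split_ifs
    · apply div_nonneg
      · apply spl_nonneg
        intro v c u
        exact mul_nonneg (pow_nonneg h0.le _) (ih _ _ _)
      · have := pow_le_one₀ h0.le h1.le (n := n + 1)
        linarith
    · exact le_refl _

theorem F_nonneg {p : ℝ} (h0 : 0 < p) (h1 : p < 1) (a b : Option C) (w : List C) :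
    0 ≤ F p a w b := Fn_nonneg h0 h1 _ _ _ _

theorem F1_nonneg {p : ℝ} (h0 : 0 < p) (h1 : p < 1) (a b : Option C) (w : List C) :
    0 ≤ F1 p a w b := mul_nonneg (pow_nonneg h0.le _) (F_nonneg h0 h1 _ _ _)

theorem Gn_abs_le {p z : ℝ} (h0 : 0 < p) (h1 : p < 1) (hz : |z| ≤ 1) (n : ℕ) :
    ∀ (a b : Option C) (w : List C), |Gn p z n a w b| ≤ Gn p 1 n a w b := by
  induction n with
  | zero =>
    intro a b w
    show |F1 p a w b| ≤ F1 p a w b
    rw [abs_of_nonneg (F1_nonneg h0 h1 _ _ _)]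
  | succ n ih =>
    intro a b w
    show |F1 p a w b + z * spl (fun v c u => F1 p a v (some c) * Gn p z n (some c) u b) w| ≤
      F1 p a w b + 1 * spl (fun v c u => F1 p a v (some c) * Gn p 1 n (some c) u b) w
    refine (abs_add_le _ _).trans ?_
    rw [abs_of_nonneg (F1_nonneg h0 h1 a b w), abs_mul]
    apply add_le_add le_rfl
    apply mul_le_mul hz _ (abs_nonneg _) zero_le_one
    apply spl_abs_le
    intro v c u
    rw [abs_mul, abs_of_nonneg (F1_nonneg h0 h1 a (some c) v)]
    exact mul_le_mul_of_nonneg_left (ih _ _ _) (F1_nonneg h0 h1 _ _ _)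

theorem G_abs_le {p z : ℝ} (h0 : 0 < p) (h1 : p < 1) (hz : |z| ≤ 1) (a b : Option C)
    (w : List C) : |G p z a w b| ≤ G p 1 a w b := Gn_abs_le h0 h1 hz _ _ _ _

theorem T_abs_le {p z : ℝ} (h0 : 0 < p) (h1 : p < 1) (hz : |z| ≤ 1) (w : List C) :
    |T p z w| ≤ T p 1 w := by
  unfold T
  apply spl_abs_le
  intro v j rest
  apply spl_abs_le
  intro g k u
  rw [abs_mul, abs_mul, abs_of_nonneg (F1_nonneg h0 h1 (some k) (some j) (u ++ v))]
  apply mul_le_mul_of_nonneg_right _ (F1_nonneg h0 h1 _ _ _)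
  apply mul_le_mul _ (G_abs_le h0 h1 hz _ _ _) (abs_nonneg _) (by norm_num)
  rw [abs_pow]
  exact pow_le_pow_left₀ (abs_nonneg _) hz 2

theorem t_POS : S_POS := by
  intro C _ p h0 h1
  refine ⟨F_nonneg h0 h1, ?_⟩
  intro w
  apply T_abs_le h0 h1
  rw [abs_neg, abs_of_pos h0]
  exact h1.le

end Pool.Agent.W287.CY
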